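import Pool.Agent.L5helper24.RM.RM25

/-!
# The Hodge conjecture for all powers of the surfaces with `p_g = 1`, `q = 0` which are dominated by
# products of curves

Let `X` be a smooth projective surface with `p_g = 1` and `q = 0`, for instance a K3 surface, and
let `T` be the transcendental part of `H^2(X, ℚ)`: an irreducible polarised rational Hodge structure
of K3 type (`h^{2,0} = 1`), of any rank, with any endomorphism field `E` (`ℚ`, a totally real field
or a CM field).  Suppose that `X` is dominated by a product of two curves `C`, `C'`, or more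
generally that there is an abelian variety `A` and an algebraic cycle on `X × A × A` which maps `T`
to `H^1(A) ⊗ H^1(A)` in a nonzero way (for a dominant rational map `C × C' → X` take the product of
the two Jacobians for `A`).

The Hodge classes in `T^{⊗ a}` are considered as rational multilinear forms on `T ⊕ H_1(A)`, all of
whose variables are in `T`, and the theorem is about a system of classes in the spaces
`T^{⊗ a} ⊗ H^1(A)^{⊗ b}` (for instance the algebraic ones) which is closed under permutations of the
variables, products and contractions with the (inverse) polarisations, and contains the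
polarisation of `T` and the Hodge classes in `H^1(A) ⊗ H^1(A)` (divisors on `A × A`, Lefschetz).

**Theorem.** If the system contains ONE nonzero class in `T ⊗ H^1(A) ⊗ H^1(A)`, then it contains ALL
Hodge classes in all `T^{⊗ a}`; only in the case that `T` has real multiplication by a field
`E ≠ ℚ` over which the rank of `T` is odd, the endomorphisms of `T` (Hodge classes in `T ⊗ T`) are
needed, too.

So the Hodge conjecture holds for all powers `X^m` of all these surfaces `X`, unless `X` has real
multiplication with odd rank over the field; in this last case it holds for all `X^m` if it holds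
for `X × X`.  In particular real multiplication of even rank and complex multiplication are
algebraic for these surfaces, and so are the determinants of `T` in `T^{⊗ n}`, `n` the rank.

Nothing is assumed on the Hodge classes of degree larger than two of the abelian variety `A` (of
the Jacobians), and the class need not be a Kuga-Satake class.  Known before: surfaces whose
`T` comes from an abelian surface (Ramón Marí), K3 surfaces with complex multiplication (Mukai,
Buskin), four-dimensional families of K3 surfaces of Picard number 16 (Varesco); in general, the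
Hodge conjecture for the powers of `X` given that for the powers of `A`.

Proof.  A Hodge class fixed by all matrices `(a, d)` which fix the system belongs to the system
(closure theorem, by the positivity of the polarisations).  (1) By Zarhin's theorem, proved in the
needed form, the Lie algebra of the Hodge group of `T ⊕ H_1(A)` is mapped onto the full orthogonal
Lie algebra (totally real case), or the full general linear Lie algebra (CM case), of the isotypic
part `T_0` of the period, and onto its conjugates.  (2) The elements of this Lie algebra orthogonal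
to the kernel of the projection give operators on `H_1(A)`; the Hodge operator has the eigenvalues
`± 1/2` on `H_1(A)`, and this forces the relations of the even Clifford algebra of `T_0`.  (3) The
product of the generators of the even Clifford algebra (even rank), or the operator of the
identity of `gl(T_0)` (CM case), commutes with the Hodge group; it anticommutes with the operators
`N(t)` of the class for `t` in `T_0` (has commutator `± N(t)` in the CM case), and commutes with them
for `t` in the other parts.  As `d` commutes with it, `a` preserves `T_0` and all its conjugates,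
hence commutes with all endomorphisms of `T`.  (4) A reflection on one conjugate of `T_0` is
excluded by central elements of the Clifford algebra, so `(a, d'')` fixes all Hodge classes for some
`d''`.

Definitions used from the libraries:

* `HS n` (`Pool.Agent.W544.PG.HS`): a polarised rational Hodge structure of level two on `ℚ^n`,
  twisted to weight zero: a symmetric rational form `Q` and the Hodge operator `x`, a complex matrix
  that is `1`, `0`, `-1` on the pieces of type `(1,-1)`, `(0,0)`, `(-1,1)` (so `x ^ 3 = x`), with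
  `conj x = -x`, skew for `Q`, and the hermitian form of `Q (2 x ^ 2 - 1)` positive definite.
* `HW w` (`Pool.Agent.W544.PG.HW`): a polarised rational Hodge structure of weight one on `ℚ^w`,
  that is a polarised abelian variety up to isogeny: the rational alternating form `E`, and the
  Hodge operator `y` with eigenvalues `1/2`, `-1/2` (`4 y ^ 2 = 1`), `conj y = -y`, skew for `E`,
  and the hermitian form of `2 i E y` positive definite.
* `mC`: a rational matrix as a complex matrix.
-/

namespace Pool.Agent.L5helper24.Draft.Dominated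

open Matrix Finset Pool.Agent.W544.PG Pool.Agent.L5helper24

/-- A rational multilinear form `t` on `T ⊕ H_1(A)`, with variables indexed by `κ` (given by its
values on the basis vectors), is a Hodge class: the Hodge operator `x ⊕ y`, acting as a derivation,
kills it. -/
def IsHodge {n w : ℕ} (T : HS n) (A : HW w) {κ : Type} [Fintype κ] [DecidableEq κ]
    (t : (κ → Fin n ⊕ Fin w) → ℚ) : Prop :=
  ∀ J, ∑ k, ∑ l, (fromBlocks T.x 0 0 A.y : Matrix (Fin n ⊕ Fin w) (Fin n ⊕ Fin w) ℂ) l (J k) *
    (t (Function.update J k l) : ℂ) = 0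

/-- A system of Hodge classes (for instance the algebraic classes): spaces `𝒜 κ` of Hodge forms on
`T ⊕ H_1(A)` with variables indexed by `κ`, closed under permutations (bijections of index sets),
products, and contractions of two variables with `Q⁻¹` on `T` or with `E⁻¹` on `H_1(A)`, and
containing the constants, the polarisation of `T`, and all Hodge bilinear forms on `H_1(A)`. -/
structure ClassSystem {n w : ℕ} (T : HS n) (A : HW w)
    (𝒜 : ∀ κ : Type, Submodule ℚ ((κ → Fin n ⊕ Fin w) → ℚ)) : Prop where
  hodge : ∀ (κ : Type) [Fintype κ] [DecidableEq κ] (t : (κ → Fin n ⊕ Fin w) → ℚ),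
    t ∈ 𝒜 κ → IsHodge T A t
  perm : ∀ (κ l : Type) [Fintype κ] [Fintype l] (e : κ ≃ l) (t : (κ → Fin n ⊕ Fin w) → ℚ),
    t ∈ 𝒜 κ → (fun J => t fun k => J (e k)) ∈ 𝒜 l
  one : (fun _ => 1) ∈ 𝒜 (Fin 0)
  mul : ∀ (κ l : Type) [Fintype κ] [Fintype l] (t : (κ → Fin n ⊕ Fin w) → ℚ)
    (u : (l → Fin n ⊕ Fin w) → ℚ), t ∈ 𝒜 κ → u ∈ 𝒜 l →
    (fun J : κ ⊕ l → Fin n ⊕ Fin w => (t fun k => J (Sum.inl k)) * u fun k => J (Sum.inr k)) ∈
      𝒜 (κ ⊕ l)
  contrT : ∀ (κ : Type) [Fintype κ] (t : (κ ⊕ Fin 2 → Fin n ⊕ Fin w) → ℚ), t ∈ 𝒜 (κ ⊕ Fin 2) →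
    (fun J => ∑ a, ∑ b, T.Q⁻¹ a b * t (Sum.elim J ![Sum.inl a, Sum.inl b])) ∈ 𝒜 κ
  contrA : ∀ (κ : Type) [Fintype κ] (t : (κ ⊕ Fin 2 → Fin n ⊕ Fin w) → ℚ), t ∈ 𝒜 (κ ⊕ Fin 2) →
    (fun J => ∑ a, ∑ b, A.E⁻¹ a b * t (Sum.elim J ![Sum.inr a, Sum.inr b])) ∈ 𝒜 κ
  polT : (fun J : Fin 2 → Fin n ⊕ Fin w => (fromBlocks T.Q 0 0 0 :
    Matrix (Fin n ⊕ Fin w) (Fin n ⊕ Fin w) ℚ) (J 0) (J 1)) ∈ 𝒜 (Fin 2)
  bilA : ∀ M : Matrix (Fin w) (Fin w) ℚ, A.yᵀ * mC M + mC M * A.y = 0 →
    (fun J : Fin 2 → Fin n ⊕ Fin w => (fromBlocks 0 0 0 M :
      Matrix (Fin n ⊕ Fin w) (Fin n ⊕ Fin w) ℚ) (J 0) (J 1)) ∈ 𝒜 (Fin 2)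

/-- `T` is irreducible: every nonzero endomorphism is invertible. -/
def Irreducible {n : ℕ} (T : HS n) : Prop :=
  ∀ D : Matrix (Fin n) (Fin n) ℚ, mC D * T.x = T.x * mC D → D ≠ 0 → D.det ≠ 0

/-- The endomorphisms of the Hodge structure `T`: the rational matrices which commute with the Hodge
operator. -/
def Endo {n : ℕ} (T : HS n) : Submodule ℚ (Matrix (Fin n) (Fin n) ℚ) where
  carrier := {D | mC D * T.x = T.x * mC D}
  zero_mem' := (RM.EndT T).zero_mem
  add_mem' := fun ha hb => (RM.EndT T).add_mem ha hb
  smul_mem' := fun z _ ha => (RM.EndT T).smul_mem z ha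

/-- `T` has real multiplication by a field different from `ℚ`, and odd rank over this field: the
space of the endomorphisms has dimension `e > 1`, all endomorphisms are self-adjoint, and `n / e` is
odd. -/
def OddRealMultiplication {n : ℕ} (T : HS n) : Prop :=
  1 < Module.finrank ℚ (Endo T) ∧ (∀ D ∈ Endo T, Dᵀ * T.Q = T.Q * D) ∧
    Odd (n / Module.finrank ℚ (Endo T))

/-- The trilinear form `(t, u, v) ↦ μ(t)(u, v)` on `T × H_1(A) × H_1(A)`, as a form on
`T ⊕ H_1(A)`, for a family `μ a` of bilinear forms on `H_1(A)` indexed by the basis of `T`. -/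
def triForm {n w : ℕ} (μ : Fin n → Matrix (Fin w) (Fin w) ℚ) :
    (Fin 3 → Fin n ⊕ Fin w) → ℚ :=
  fun J => Sum.elim (fun a => Sum.elim (fun _ => 0)
    (fun b => Sum.elim (fun _ => 0) (fun d => μ a b d) (J 2)) (J 1)) (fun _ => 0) (J 0)

/-- **Every Hodge class of every `T^{⊗ a}` is in a system which contains one nonzero class in
`T ⊗ H^1(A) ⊗ H^1(A)`** (and the endomorphisms of `T`, in the case of real multiplication by a
field different from `ℚ` with odd rank over the field). -/
theorem result (n w : ℕ) (T : HS n) (h1 : (T.x * T.x).trace = 2) (hI : Irreducible T) (A : HW w)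
    (𝒜 : ∀ κ : Type, Submodule ℚ ((κ → Fin n ⊕ Fin w) → ℚ)) (h : ClassSystem T A 𝒜)
    (μ : Fin n → Matrix (Fin w) (Fin w) ℚ) (hμ0 : μ ≠ 0) (hμ : triForm μ ∈ 𝒜 (Fin 3))
    (hodd : OddRealMultiplication T → ∀ D ∈ Endo T,
      (fun J : Fin 2 → Fin n ⊕ Fin w => (fromBlocks (T.Q * D) 0 0 0 :
        Matrix (Fin n ⊕ Fin w) (Fin n ⊕ Fin w) ℚ) (J 0) (J 1)) ∈ 𝒜 (Fin 2))
    (κ : Type) [Fintype κ] [DecidableEq κ] (t : (κ → Fin n ⊕ Fin w) → ℚ)
    (ht : IsHodge T A t) (hT : ∀ J, t J ≠ 0 → ∀ k, ∃ a, J k = Sum.inl a) : t ∈ 𝒜 κ := by
  have hiff : ∀ {κ : Type} [Fintype κ] [DecidableEq κ] (t : (κ → Fin n ⊕ Fin w) → ℚ),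
      KM.IsH T A t ↔ IsHodge T A t := fun t => funext_iff
  have hskew : ∀ D : Matrix (Fin w) (Fin w) ℚ, mC D * A.y = A.y * mC D →
      A.yᵀ * mC (A.E * D) + mC (A.E * D) * A.y = 0 := by
    intro D hD
    rw [KS.mC_mul, ← mul_assoc, mul_assoc (mC A.E), hD, ← mul_assoc, ← add_mul, A.skew,
      zero_mul]
  have hsys : KM.IsSys T A 𝒜 :=
    ⟨fun κ _ _ t ht => (hiff t).2 (h.hodge κ t ht), h.perm, h.one, h.mul, h.contrT,
      h.contrA, h.polT, h.bilA _ A.skew⟩
  exact RM.all_T_fin hsys (fun D hD => h.bilA _ (hskew D hD)) h1 hI hodd hμ0 hμ ((hiff t).2 ht) hT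

end Pool.Agent.L5helper24.Draft.Dominated
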