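import Pool.Agent.L5helper24.RM.RM16

/-!
# Every K3 surface: the Kuga-Satake class decides about the Hodge conjecture for all `X^m × KS(X)^l`

Let `T` be an irreducible polarised rational Hodge structure of K3 type (`h^{2,0} = 1`), for
instance the transcendental part of `H^2` of ANY projective K3 surface `X` (or of a surface with
`p_g = 1`, of a hyper-Kähler variety, or of `H^4` of a cubic fourfold), with no condition on its
rank and on its endomorphism field (`ℚ`, a totally real field or a CM field).  Let `A` be a
polarised abelian variety, and let `μ : T → H^1(A) ⊗ H^1(A)` be a nonzero morphism of Hodge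
structures such that the corresponding operators `E⁻¹ μ(t)` on `H_1(A)` satisfy the relation of the
Clifford algebra of `T`, up to one constant `c ≠ 0`.  For the Kuga-Satake variety `A = KS(X)` this
is the standard Kuga-Satake embedding: `H_1(A)` is the (even) Clifford algebra of `T` (or of the
primitive cohomology), and `t` acts as `w ↦ t w` (or `w ↦ t w t_0` with a fixed `t_0`, and
`c = t_0²`).

The Hodge classes in `T^{⊗ a} ⊗ H^1(A)^{⊗ b}` are considered as rational multilinear forms, and the
theorem is about a system of such classes (for instance the algebraic ones) which is closed under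
permutations of the variables, products and contractions with the (inverse) polarisations, and
contains the polarisation of `T` and the Hodge classes in `H^1(A) ⊗ H^1(A)` (divisors on `A × A`).

**Theorem.** If the system contains the ONE class `μ` (the Kuga-Satake correspondence), then it
contains ALL Hodge classes in all `T^{⊗ a} ⊗ H^1(A)^{⊗ b}`.

So for every K3 surface `X` the Hodge conjecture for all the varieties `X^m × KS(X)^l` (in
particular for all powers of `X` and for all powers of the Kuga-Satake variety) is equivalent to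
the algebraicity of the Kuga-Satake correspondence.  No Hodge class of degree larger than two on
`A` is assumed to be algebraic, nor are the endomorphisms of `T`.  In the cases in which the
Kuga-Satake correspondence is known to be algebraic (for instance for the cyclic quartic surfaces
and the cyclic cubic fourfolds, van Geemen and Izadi) the result is unconditional.

Proof.  A Hodge class fixed by all matrices `(a, d)` which fix the system belongs to the system
(closure theorem, by the positivity of the polarisations).  (1) Zarhin's theorem is proved in the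
needed form: `T ⊗ ℂ` is the sum of the conjugates of the isotypic part `T_0` of the period, and the
Lie algebra of the Hodge group contains the full orthogonal Lie algebra of `T_0` (totally real
case) or the full general linear Lie algebra of `T_0` (CM case).  (2) The Clifford relation
determines the Hodge operator of `A`, and the part of the Clifford algebra which is attached to
`T_0` contains an element commuting with the Hodge group (the product of an orthonormal basis of
`T_0`, or the sum of the products of the elements of dual bases of `T_0` and its conjugate) which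
shows that `a` preserves `T_0` and all its conjugates; so `a` commutes with all endomorphisms of
`T`.  (3) A reflection on one conjugate of `T_0` is excluded by the central elements of the
Clifford algebra (this is the algebraicity of the determinant classes), so `(a, d'')` fixes all
Hodge classes for some `d''` (each factor is lifted by one-parameter groups).  (4) The remaining
element `(1, e)` is in the commutant of the Clifford algebra and of the commutant of its even part,
so `e = ± 1` by averaging over the Clifford group.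

Definitions used from the libraries:

* `HS n` (`Pool.Agent.W544.PG.HS`): a polarised rational Hodge structure of level two on `ℚ^n`,
  twisted to weight zero: a symmetric rational form `Q` and the Hodge operator `x`, a complex matrix
  that is `1`, `0`, `-1` on the pieces of type `(1,-1)`, `(0,0)`, `(-1,1)` (so `x ^ 3 = x`), with
  `conj x = -x`, skew for `Q`, and the hermitian form of `Q (2 x ^ 2 - 1)` positive definite.
* `HW w` (`Pool.Agent.W544.PG.HW`): a polarised rational Hodge structure of weight one on `ℚ^w`,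
  that is a polarised abelian variety up to isogeny: the rational alternating form `E`, and the
  Hodge operator `y` with eigenvalues `1/2`, `-1/2` (`4 y ^ 2 = 1`), `conj y = -y`, skew for `E`,
  and the hermitian form of `2 i E y` positive definite.
* `mC`: a rational matrix as a complex matrix.
-/

namespace Pool.Agent.L5helper24.Draft.EveryK3

open Matrix Finset Pool.Agent.W544.PG Pool.Agent.L5helper24

/-- A rational multilinear form `t` on `T ⊕ H_1(A)`, with variables indexed by `κ` (given by its
values on the basis vectors), is a Hodge class: the Hodge operator `x ⊕ y`, acting as a derivation,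
kills it. -/
def IsHodge {n w : ℕ} (T : HS n) (A : HW w) {κ : Type} [Fintype κ] [DecidableEq κ]
    (t : (κ → Fin n ⊕ Fin w) → ℚ) : Prop :=
  ∀ J, ∑ k, ∑ l, (fromBlocks T.x 0 0 A.y : Matrix (Fin n ⊕ Fin w) (Fin n ⊕ Fin w) ℂ) l (J k) *
    (t (Function.update J k l) : ℂ) = 0

/-- A system of Hodge classes (for instance the algebraic classes): spaces `𝒜 κ` of Hodge forms on
`T ⊕ H_1(A)` with variables indexed by `κ`, closed under permutations (bijections of index sets),
products, and contractions of two variables with `Q⁻¹` on `T` or with `E⁻¹` on `H_1(A)`, and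
containing the constants, the polarisation of `T`, and all Hodge bilinear forms on `H_1(A)`. -/
structure ClassSystem {n w : ℕ} (T : HS n) (A : HW w)
    (𝒜 : ∀ κ : Type, Submodule ℚ ((κ → Fin n ⊕ Fin w) → ℚ)) : Prop where
  hodge : ∀ (κ : Type) [Fintype κ] [DecidableEq κ] (t : (κ → Fin n ⊕ Fin w) → ℚ),
    t ∈ 𝒜 κ → IsHodge T A t
  perm : ∀ (κ l : Type) [Fintype κ] [Fintype l] (e : κ ≃ l) (t : (κ → Fin n ⊕ Fin w) → ℚ),
    t ∈ 𝒜 κ → (fun J => t fun k => J (e k)) ∈ 𝒜 l
  one : (fun _ => 1) ∈ 𝒜 (Fin 0)
  mul : ∀ (κ l : Type) [Fintype κ] [Fintype l] (t : (κ → Fin n ⊕ Fin w) → ℚ)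
    (u : (l → Fin n ⊕ Fin w) → ℚ), t ∈ 𝒜 κ → u ∈ 𝒜 l →
    (fun J : κ ⊕ l → Fin n ⊕ Fin w => (t fun k => J (Sum.inl k)) * u fun k => J (Sum.inr k)) ∈
      𝒜 (κ ⊕ l)
  contrT : ∀ (κ : Type) [Fintype κ] (t : (κ ⊕ Fin 2 → Fin n ⊕ Fin w) → ℚ), t ∈ 𝒜 (κ ⊕ Fin 2) →
    (fun J => ∑ a, ∑ b, T.Q⁻¹ a b * t (Sum.elim J ![Sum.inl a, Sum.inl b])) ∈ 𝒜 κ
  contrA : ∀ (κ : Type) [Fintype κ] (t : (κ ⊕ Fin 2 → Fin n ⊕ Fin w) → ℚ), t ∈ 𝒜 (κ ⊕ Fin 2) →
    (fun J => ∑ a, ∑ b, A.E⁻¹ a b * t (Sum.elim J ![Sum.inr a, Sum.inr b])) ∈ 𝒜 κ
  polT : (fun J : Fin 2 → Fin n ⊕ Fin w => (fromBlocks T.Q 0 0 0 :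
    Matrix (Fin n ⊕ Fin w) (Fin n ⊕ Fin w) ℚ) (J 0) (J 1)) ∈ 𝒜 (Fin 2)
  bilA : ∀ M : Matrix (Fin w) (Fin w) ℚ, A.yᵀ * mC M + mC M * A.y = 0 →
    (fun J : Fin 2 → Fin n ⊕ Fin w => (fromBlocks 0 0 0 M :
      Matrix (Fin n ⊕ Fin w) (Fin n ⊕ Fin w) ℚ) (J 0) (J 1)) ∈ 𝒜 (Fin 2)

/-- `T` is irreducible: every nonzero endomorphism is invertible. -/
def Irreducible {n : ℕ} (T : HS n) : Prop :=
  ∀ D : Matrix (Fin n) (Fin n) ℚ, mC D * T.x = T.x * mC D → D ≠ 0 → D.det ≠ 0

/-- The trilinear form `(t, u, v) ↦ μ(t)(u, v)` on `T × H_1(A) × H_1(A)`, as a form on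
`T ⊕ H_1(A)`, for a family `μ a` of bilinear forms on `H_1(A)` indexed by the basis of `T`. -/
def triForm {n w : ℕ} (μ : Fin n → Matrix (Fin w) (Fin w) ℚ) :
    (Fin 3 → Fin n ⊕ Fin w) → ℚ :=
  fun J => Sum.elim (fun a => Sum.elim (fun _ => 0)
    (fun b => Sum.elim (fun _ => 0) (fun d => μ a b d) (J 2)) (J 1)) (fun _ => 0) (J 0)

/-- The Clifford relation: the operators `N_a = E⁻¹ μ_a` on `H_1(A)` satisfy
`N_a N_b + N_b N_a = 2 c Q(a, b)`. -/
def CliffordRelation {n w : ℕ} (T : HS n) (A : HW w) (μ : Fin n → Matrix (Fin w) (Fin w) ℚ)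
    (c : ℚ) : Prop :=
  ∀ a b, A.E⁻¹ * μ a * (A.E⁻¹ * μ b) + A.E⁻¹ * μ b * (A.E⁻¹ * μ a) = (2 * c * T.Q a b) • 1

/-- **Every Hodge class of every `T^{⊗ a} ⊗ H^1(A)^{⊗ b}` is in a system which contains one
Kuga-Satake class `μ`, for every irreducible Hodge structure `T` of K3 type.** -/
theorem result (n w : ℕ) (T : HS n) (h1 : (T.x * T.x).trace = 2) (hI : Irreducible T) (A : HW w)
    (𝒜 : ∀ κ : Type, Submodule ℚ ((κ → Fin n ⊕ Fin w) → ℚ)) (h : ClassSystem T A 𝒜)
    (μ : Fin n → Matrix (Fin w) (Fin w) ℚ) (hμ0 : μ ≠ 0) (c : ℚ) (hc : c ≠ 0)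
    (hcl : CliffordRelation T A μ c) (hμ : triForm μ ∈ 𝒜 (Fin 3))
    (κ : Type) [Fintype κ] [DecidableEq κ] (t : (κ → Fin n ⊕ Fin w) → ℚ)
    (ht : IsHodge T A t) : t ∈ 𝒜 κ := by
  have hiff : ∀ {κ : Type} [Fintype κ] [DecidableEq κ] (t : (κ → Fin n ⊕ Fin w) → ℚ),
      KM.IsH T A t ↔ IsHodge T A t := fun t => funext_iff
  have hskew : ∀ D : Matrix (Fin w) (Fin w) ℚ, mC D * A.y = A.y * mC D →
      A.yᵀ * mC (A.E * D) + mC (A.E * D) * A.y = 0 := by
    intro D hD
    rw [KS.mC_mul, ← mul_assoc, mul_assoc (mC A.E), hD, ← mul_assoc, ← add_mul, A.skew,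
      zero_mul]
  have hsys : KM.IsSys T A 𝒜 :=
    ⟨fun κ _ _ t ht => (hiff t).2 (h.hodge κ t ht), h.perm, h.one, h.mul, h.contrT,
      h.contrA, h.polT, h.bilA _ A.skew⟩
  exact RM.all_TW hsys (fun D hD => h.bilA _ (hskew D hD)) h1 hI hμ hμ0 hc hcl ((hiff t).2 ht)

end Pool.Agent.L5helper24.Draft.EveryK3
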